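import Pool.Agent.H.MP_1ed35b_co.C
import Pool.Agent.H.MP_1ed35b_co.D
import Pool.Agent.H.MP_1ed35b_co.E

namespace Pool.Agent.Results.MP_1ed35b_co.Neg

/-- There is a connected pseudo `k`-regular graph with exactly `n` vertices: at least two
vertices, connected, every average 2-degree `m_i` equals `k`, and the degrees are not all equal. -/
def Pseudo (k n : ℕ) : Prop :=
  ∃ (G : SimpleGraph (Fin n)) (_ : DecidableRel G.Adj), 2 ≤ n ∧ G.Connected ∧
    (∀ i, (∑ j ∈ G.neighborFinset i, (G.degree j : ℚ)) / (G.degree i : ℚ) = (k : ℚ)) ∧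
    ∃ i j, G.degree i ≠ G.degree j

theorem result : ∃ k n N : ℕ, 5 ≤ k ∧ IsLeast {m | Pseudo k m} N ∧ N ≤ n ∧ ¬Pseudo k n ∧
    k = 16 ∧ n = 20 := by
  have h19 : Pseudo 16 19 := by
    refine ⟨Pool.Agent.H.MP_1ed35b_co.E.G, inferInstance, by norm_num,
      Pool.Agent.H.MP_1ed35b_co.E.conn, fun i => ?_, 0, 7, Pool.Agent.H.MP_1ed35b_co.E.nonreg⟩
    have h1 := Pool.Agent.H.MP_1ed35b_co.E.harm i
    have h2 := Pool.Agent.H.MP_1ed35b_co.E.pos i
    rw [div_eq_iff (by exact_mod_cast h2.ne')]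
    exact_mod_cast h1
  have h20 : ¬Pseudo 16 20 := by
    rintro ⟨G, inst, -, -, hm, hn⟩
    have hp : ∀ i, 0 < G.degree i := by
      intro i
      rcases Nat.eq_zero_or_pos (G.degree i) with h | h
      · have := hm i
        rw [h] at this
        norm_num at this
      · exact h
    refine Pool.Agent.H.MP_1ed35b_co.D.red G hp (fun i => ?_) hn Pool.Agent.H.MP_1ed35b_co.C.all
    have h1 := hm i
    rw [div_eq_iff (by exact_mod_cast (hp i).ne')] at h1
    exact_mod_cast h1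
  refine ⟨16, 20, sInf {m | Pseudo 16 m}, by norm_num,
    ⟨Nat.sInf_mem ⟨19, h19⟩, fun m hm => Nat.sInf_le hm⟩, ?_, h20, rfl, rfl⟩
  exact le_trans (Nat.sInf_le h19) (by norm_num)

end Pool.Agent.Results.MP_1ed35b_co.Neg
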